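import Mathlib
import Pool.Agent.helper18.Rot.Defs

/-! Displacement of the class number `g` in one step. -/

namespace Pool.Agent.helper8.Rot

open Pool.Agent.helper18.Rot Par

/-- displacement of the class number `g` in one step -/
noncomputable def Dg (P : Par) (g : Ga) (p : P.Surf) : ℝ := by
  classical exact
  if P.sheet p = g then chi (yl p.1.1.2 + P.tau p.1.1) - chi (yl p.1.1.2) else 0

theorem Dg_of_eq (P : Par) {g : Ga} {p : P.Surf} (h : P.sheet p = g) :
    Dg P g p = chi (yl p.1.1.2 + P.tau p.1.1) - chi (yl p.1.1.2) := by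
  simp [Dg, h]

theorem Dg_of_ne (P : Par) {g : Ga} {p : P.Surf} (h : P.sheet p ≠ g) : Dg P g p = 0 := by
  simp [Dg, h]

theorem yl_coe {y : ℝ} (h0 : 0 < y) (h1 : y ≤ 1) : yl ((y : ℝ) : UnitAddCircle) = y := by
  unfold yl
  exact AddCircle.equivIoc_coe_of_mem ⟨h0, by simpa using h1⟩

theorem yl_pos (y : UnitAddCircle) : 0 < yl y := (AddCircle.equivIoc (1 : ℝ) 0 y).2.1

theorem yl_le (y : UnitAddCircle) : yl y ≤ 1 := by
  have h := (AddCircle.equivIoc (1 : ℝ) 0 y).2.2
  unfold yl
  linarith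

theorem coe_yl (y : UnitAddCircle) : ((yl y : ℝ) : UnitAddCircle) = y :=
  AddCircle.coe_equivIoc

theorem chi_of_le {y : ℝ} (h : y ≤ 1 / 4) : chi y = 0 := by
  unfold chi
  rw [max_eq_left]
  exact (min_le_right _ _).trans (by linarith)

theorem chi_of_ge {y : ℝ} (h : 3 / 4 ≤ y) : chi y = 1 := by
  unfold chi
  rw [min_eq_left (by linarith)]
  norm_num

theorem chi_nonneg (y : ℝ) : 0 ≤ chi y := le_max_left _ _

theorem chi_le_one (y : ℝ) : chi y ≤ 1 := max_le zero_le_one (min_le_left _ _)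

theorem chi_continuous : Continuous chi := by
  unfold chi
  fun_prop

end Pool.Agent.helper8.Rot
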