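import Mathlib
import Pool.Agent.helper18.Rot.Defs
import Pool.Agent.helper31.Rot.G
import Pool.Agent.helper67.Rot.Step
import Pool.Agent.helper8.Rot.DgDef

/-! Trajectories and Birkhoff sums. -/

open Topology Filter Set
open scoped unitInterval

namespace Pool.Agent.helper8.Rot

open Pool.Agent.helper18.Rot Par
open Pool.Agent.helper31.Rot (norm_G_sub_le norm_G_le)
open Pool.Agent.helper67.Rot (sheet_step)

variable (P : Par)

theorem tau_nonneg (q : UnitAddCircle × UnitAddCircle) : 0 ≤ P.tau q := by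
  unfold tau
  have := le_min (norm_nonneg (P.G 0 q)) (norm_nonneg (P.G 1 q))
  linarith

theorem tau_le (q : UnitAddCircle × UnitAddCircle) : P.tau q ≤ 1 / 100 := by
  unfold tau
  have := (min_le_left ‖P.G 0 q‖ ‖P.G 1 q‖).trans (norm_G_le P 0 q)
  linarith

theorem tau_le_norm (q : UnitAddCircle × UnitAddCircle) (i : Fin 2) :
    P.tau q ≤ (1 / 100) * ‖P.G i q‖ := by
  unfold tau
  fin_cases i
  · simp
  · simp

theorem tau_eq_zero {q : UnitAddCircle × UnitAddCircle} {i : Fin 2} (h : P.G i q = 0) :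
    P.tau q = 0 := by
  have h1 := tau_nonneg P q
  have h2 := tau_le_norm P q i
  rw [h, norm_zero, mul_zero] at h2
  linarith

/-- the functions `G` do not vanish along the motion -/
theorem G_mv_ne {q : UnitAddCircle × UnitAddCircle} {i : Fin 2} (h : P.G i q ≠ 0) {t : ℝ}
    (h0 : 0 ≤ t) (h1 : t ≤ P.tau q) : P.G i (P.mv t q) ≠ 0 := by
  intro hz
  have h2 := norm_G_sub_le P i q (P.al * t) t
  have h3 : P.mv t q = (q.1 + ((P.al * t : ℝ) : UnitAddCircle), q.2 + ((t : ℝ) : UnitAddCircle)) :=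
    rfl
  rw [← h3, hz, zero_sub, norm_neg, abs_of_nonneg h0,
    abs_of_nonneg (mul_nonneg P.al_pos.le h0)] at h2
  have h4 := tau_le_norm P q i
  have h5 := norm_pos_iff.mpr h
  have h6 := P.al_lt
  have h7 : P.al * t ≤ 1 / 8 * t := mul_le_mul_of_nonneg_right h6.le h0
  linarith

theorem psi_zero_time {p : P.Surf} (t : ℝ) (ht : t = 0) : P.psi t p.1 = p.1 := by
  subst ht
  have hm : P.mv 0 p.1.1 = p.1.1 := by
    simp [mv]
  unfold psi
  rw [hm]
  refine Prod.ext rfl ?_
  funext i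
  by_cases h : P.G i p.1.1 = 0
  · have h3 := p.2 i
    rw [h] at h3
    have h4 : p.1.2 i = 0 := by simpa using h3
    simp [h4]
  · simp only [div_self h]
    simp [cb]

section traj

variable (F : IdIsotopy P.Surf)
  (hF : ∀ (t : I) (p : P.Surf), (F.toMap (t, p)).1 = P.psi (t * P.tau p.1.1) p.1)

include hF

theorem f_val (p : P.Surf) : (F.f p).1 = P.psi (P.tau p.1.1) p.1 := by
  have := hF 1 p
  simpa [IdIsotopy.f] using this

theorem f_fst (p : P.Surf) : (F.f p).1.1 = P.mv (P.tau p.1.1) p.1.1 := by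
  rw [f_val P F hF p]
  rfl

theorem traj_aux (p : P.Surf) (hp : ∀ i, P.G i p.1.1 ≠ 0) {X Y : ℝ}
    (hX : p.1.1.1 = (X : UnitAddCircle))
    (hY : p.1.1.2 = (Y : UnitAddCircle)) (hY0 : 0 < Y) (hY1 : Y ≤ 1) (n : ℕ) :
    ∃ (L : ℕ) (y : ℝ), 0 < y ∧ y ≤ 1 ∧
      Y + ∑ i ∈ Finset.range n, P.tau (F.f^[i] p).1.1 = L + y ∧
      (∀ i, P.G i (F.f^[n] p).1.1 ≠ 0) ∧
      (F.f^[n] p).1.1 = (((X + P.al * ∑ i ∈ Finset.range n, P.tau (F.f^[i] p).1.1 : ℝ) :
        UnitAddCircle), ((y : ℝ) : UnitAddCircle)) ∧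
      P.sheet (F.f^[n] p) = P.sheet p + P.Lab (Int.fract (X + (1 - Y) * P.al)) L ∧
      ∀ g, ∑ i ∈ Finset.range n, Dg P g (F.f^[i] p) =
        ∑ j ∈ Finset.range L,
          (if P.sheet p + P.Lab (Int.fract (X + (1 - Y) * P.al)) j = g then (1 : ℝ) else 0) -
        (if P.sheet p = g then chi Y else 0) +
        (if P.sheet p + P.Lab (Int.fract (X + (1 - Y) * P.al)) L = g then chi y else 0) := by
  induction n with
  | zero =>
    refine ⟨0, Y, hY0, hY1, by simp, by simpa using hp, ?_, ?_, ?_⟩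
    · simp only [Function.iterate_zero, id_eq, Finset.range_zero, Finset.sum_empty, mul_zero,
        add_zero]
      exact Prod.ext hX hY
    · simp [Lab]
    · intro g
      simp [Lab]
  | succ n ih =>
    obtain ⟨L, y, hy0, hy1, hsum, hne, hpos, hsh, hD⟩ := ih
    set T : ℝ := ∑ i ∈ Finset.range n, P.tau (F.f^[i] p).1.1 with hT
    set x₀ : ℝ := Int.fract (X + (1 - Y) * P.al) with hx₀
    set q : P.Surf := F.f^[n] p with hq
    have hit : F.f^[n + 1] p = F.f q := by rw [Function.iterate_succ_apply']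
    have hT' : ∑ i ∈ Finset.range (n + 1), P.tau (F.f^[i] p).1.1 = T + P.tau q.1.1 := by
      rw [Finset.sum_range_succ]
    set t : ℝ := P.tau q.1.1 with ht
    have ht0 : 0 ≤ t := tau_nonneg P _
    have ht1 : t ≤ 1 / 100 := tau_le P _
    have hq1 : q.1.1.1 = ((X + P.al * T : ℝ) : UnitAddCircle) := by rw [hpos]
    have hq2 : q.1.1.2 = ((y : ℝ) : UnitAddCircle) := by rw [hpos]
    have hstep := sheet_step P q (F.f q) hne ht0 le_rfl hq1 hq2 hy0 hy1 (f_val P F hF q)
    have hne' : ∀ i, P.G i (F.f q).1.1 ≠ 0 := by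
      intro i
      rw [f_fst P F hF q]
      exact G_mv_ne P (hne i) ht0 le_rfl
    have hpos' : (F.f q).1.1 = (((X + P.al * (T + t) : ℝ) : UnitAddCircle),
        ((y + t : ℝ) : UnitAddCircle)) := by
      rw [f_fst P F hF q, mv, hq1, hq2]
      refine Prod.ext ?_ ?_
      · simp only
        rw [← AddCircle.coe_add]
        congr 1
        ring
      · simp only
        rw [← AddCircle.coe_add]
    have hyl : yl q.1.1.2 = y := by rw [hq2, yl_coe hy0 hy1]
    have hDq : ∀ g, Dg P g q = if P.sheet p + P.Lab x₀ L = g then chi (y + t) - chi y else 0 := by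
      intro g
      by_cases h : P.sheet q = g
      · rw [Dg_of_eq P h, hyl, if_pos (by rw [← hsh, h])]
      · rw [Dg_of_ne P h, if_neg (by rw [← hsh]; exact h)]
    rw [hit, hT']
    by_cases hcross : y + t ≤ 1
    · refine ⟨L, y + t, by linarith, hcross, by linarith, hne', hpos', ?_, ?_⟩
      · rw [hstep.1 hcross, hsh]
      · intro g
        rw [Finset.sum_range_succ, hD g, ← hq, hDq g]
        split_ifs <;> ring
    · push Not at hcross
      refine ⟨L + 1, y + t - 1, by linarith, by linarith, by push_cast; linarith, hne', ?_, ?_, ?_⟩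
      · rw [hpos']
        refine Prod.ext rfl ?_
        simp only
        rw [AddCircle.coe_sub, AddCircle.coe_period, sub_zero]
      · rw [hstep.2 hcross, hsh, add_assoc]
        congr 1
        rw [Lab, Lab, Finset.sum_range_succ]
        congr 2
        rw [orb, hx₀]
        have h1 : X + P.al * T + (1 - y) * P.al = X + (1 - Y) * P.al + L * P.al := by
          have : y = Y + T - L := by linarith
          rw [this]; ring
        rw [h1]
        have h2 : Int.fract (X + (1 - Y) * P.al) + (L : ℝ) * P.al =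
            (X + (1 - Y) * P.al + L * P.al) - (⌊X + (1 - Y) * P.al⌋ : ℤ) := by
          rw [Int.fract]; ring
        rw [h2, Int.fract_sub_intCast]
      · intro g
        rw [Finset.sum_range_succ, hD g, ← hq, hDq g, Finset.sum_range_succ]
        have hc1 : chi (y + t) = 1 := chi_of_ge (by linarith)
        have hc2 : chi (y + t - 1) = 0 := chi_of_le (by linarith)
        rw [hc1, hc2]
        split_ifs <;> ring

theorem traj
    (p : P.Surf) (hp : ∀ i, P.G i p.1.1 ≠ 0) {X Y : ℝ} (hX : p.1.1.1 = (X : UnitAddCircle))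
    (hY : p.1.1.2 = (Y : UnitAddCircle)) (hY0 : 0 < Y) (hY1 : Y ≤ 1) (n : ℕ) :
    let T : ℝ := ∑ i ∈ Finset.range n, P.tau (F.f^[i] p).1.1
    let L : ℕ := ⌈Y + T⌉₊ - 1
    let x₀ : ℝ := Int.fract (X + (1 - Y) * P.al)
    (∀ i, P.G i (F.f^[n] p).1.1 ≠ 0) ∧
    (F.f^[n] p).1.1 = (((X + P.al * T : ℝ) : UnitAddCircle), ((Y + T : ℝ) : UnitAddCircle)) ∧
    P.sheet (F.f^[n] p) = P.sheet p + P.Lab x₀ L ∧
    ∀ g, |∑ i ∈ Finset.range n, Dg P g (F.f^[i] p) - P.Cnt x₀ L (g - P.sheet p)| ≤ 2 := by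
  obtain ⟨L', y, hy0, hy1, hsum, hne, hpos, hsh, hD⟩ := traj_aux P F hF p hp hX hY hY0 hY1 n
  intro T L x₀
  have hLL : L = L' := by
    have h1 : ⌈Y + T⌉₊ = L' + 1 := by
      rw [show Y + T = (L' : ℝ) + y from hsum]
      rw [Nat.ceil_eq_iff (by omega)]
      constructor
      · rw [Nat.add_sub_cancel]
        linarith
      · push_cast; linarith
    have h2 : L = ⌈Y + T⌉₊ - 1 := rfl
    rw [h2, h1]; rfl
  rw [hLL]
  refine ⟨hne, ?_, hsh, ?_⟩
  · rw [hpos]
    refine Prod.ext rfl ?_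
    simp only
    rw [show Y + T = (L' : ℝ) + y from hsum, AddCircle.coe_add]
    have : ((L' : ℝ) : UnitAddCircle) = 0 := by
      have := AddCircle.coe_eq_zero_iff (1 : ℝ) (x := (L' : ℝ))
      rw [this]
      exact ⟨L', by simp⟩
    rw [this, zero_add]
  · intro g
    have hcnt : (P.Cnt x₀ L' (g - P.sheet p) : ℝ) =
        ∑ j ∈ Finset.range L', (if P.sheet p + P.Lab x₀ (j + 1) = g then (1 : ℝ) else 0) := by
      unfold Cnt
      rw [Finset.card_filter]
      push_cast
      refine Finset.sum_congr rfl fun j _ => ?_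
      refine if_congr ?_ rfl rfl
      constructor
      · intro h; rw [h]; abel
      · intro h; rw [← h]; abel
    have htel : ∑ j ∈ Finset.range L', (if P.sheet p + P.Lab x₀ (j + 1) = g then (1 : ℝ) else 0) -
        ∑ j ∈ Finset.range L', (if P.sheet p + P.Lab x₀ j = g then (1 : ℝ) else 0) =
        (if P.sheet p + P.Lab x₀ L' = g then (1 : ℝ) else 0) -
        (if P.sheet p + P.Lab x₀ 0 = g then (1 : ℝ) else 0) := by
      rw [← Finset.sum_sub_distrib]
      exact Finset.sum_range_sub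
        (fun j => if P.sheet p + P.Lab x₀ j = g then (1 : ℝ) else 0) L'
    have h1 := hD g
    rw [h1, hcnt]
    have e1 : |(if P.sheet p = g then chi Y else 0)| ≤ 1 ∧ 0 ≤ (if P.sheet p = g then chi Y else 0) := by
      split_ifs
      · rw [abs_of_nonneg (chi_nonneg _)]; exact ⟨chi_le_one _, chi_nonneg _⟩
      · simp
    have e2 : |(if P.sheet p + P.Lab x₀ L' = g then chi y else 0)| ≤ 1 ∧
        0 ≤ (if P.sheet p + P.Lab x₀ L' = g then chi y else 0) := by
      split_ifs
      · rw [abs_of_nonneg (chi_nonneg _)]; exact ⟨chi_le_one _, chi_nonneg _⟩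
      · simp
    have e3 : (0 : ℝ) ≤ (if P.sheet p + P.Lab x₀ L' = g then (1 : ℝ) else 0) ∧
        (if P.sheet p + P.Lab x₀ L' = g then (1 : ℝ) else 0) ≤ 1 := by
      split_ifs <;> norm_num
    have e4 : (0 : ℝ) ≤ (if P.sheet p + P.Lab x₀ 0 = g then (1 : ℝ) else 0) ∧
        (if P.sheet p + P.Lab x₀ 0 = g then (1 : ℝ) else 0) ≤ 1 := by
      split_ifs <;> norm_num
    have e5 := abs_le.mp e1.1
    have e6 := abs_le.mp e2.1
    rw [abs_le]
    constructor <;> linarith [e1.2, e2.2, e3.1, e3.2, e4.1, e4.2]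

theorem iterate_fixed {p : P.Surf} {i : Fin 2} (h : P.G i p.1.1 = 0) (n : ℕ) :
    F.f^[n] p = p := by
  have h1 : F.f p = p := by
    apply Subtype.ext
    rw [f_val P F hF p]
    exact psi_zero_time P _ (tau_eq_zero P h)
  exact Function.iterate_fixed h1 n

theorem upper (p : P.Surf) (n : ℕ) :
    ∃ x : ℝ, 0 ≤ x ∧ x < 1 ∧ ∃ (s : Ga) (L : ℕ), ∀ g,
      |∑ i ∈ Finset.range n, Dg P g (F.f^[i] p) - P.Cnt x L (g - s)| ≤ 2 := by
  by_cases hp : ∀ i, P.G i p.1.1 ≠ 0
  · obtain ⟨X, hX⟩ := QuotientAddGroup.mk_surjective p.1.1.1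
    have h := (traj P F hF p hp (X := X) (Y := yl p.1.1.2) hX.symm (coe_yl _).symm (yl_pos _)
      (yl_le _) n).2.2.2
    exact ⟨_, Int.fract_nonneg _, Int.fract_lt_one _, _, _, h⟩
  · push Not at hp
    obtain ⟨i, hi⟩ := hp
    refine ⟨0, le_rfl, zero_lt_one, 0, 0, fun g => ?_⟩
    have hz : ∑ i ∈ Finset.range n, Dg P g (F.f^[i] p) = 0 := by
      refine Finset.sum_eq_zero fun j _ => ?_
      rw [iterate_fixed P F hF hi j]
      by_cases h : P.sheet p = g
      · rw [Dg_of_eq P h, tau_eq_zero P hi]; simp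
      · exact Dg_of_ne P h
    rw [hz]
    simp [Cnt]

end traj

end Pool.Agent.helper8.Rot
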