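import Mathlib
import Pool.Agent.helper18.Rot.Defs
import Pool.Agent.helper31.Rot.G
import Pool.Agent.helper31.Rot.Cb
import Pool.Agent.helper67.Rot.Step
import Pool.Agent.helper8.Rot.Birk

/-! The cohomology classes and their displacement. -/

open Topology Filter Set
open scoped unitInterval

namespace Pool.Agent.helper8.Rot

open Pool.Agent.helper18.Rot Par
open Pool.Agent.helper31.Rot (cb_continuousAt eq_lb_iff continuous_G G_notMem_slitPlane_iff)
open Pool.Agent.helper67.Rot (sheet_step)

variable (P : Par)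

theorem continuous_tau : Continuous P.tau := by
  unfold tau
  have h0 := continuous_G P 0
  have h1 := continuous_G P 1
  fun_prop

theorem continuous_base : Continuous fun p : P.Surf => p.1.1 :=
  continuous_fst.comp continuous_subtype_val

theorem continuous_ht : Continuous fun p : P.Surf => p.1.1.2 :=
  continuous_snd.comp (continuous_base P)

theorem continuous_w (i : Fin 2) : Continuous fun p : P.Surf => p.1.2 i :=
  (continuous_apply i).comp (continuous_snd.comp continuous_subtype_val)

/-- the sheet is locally constant away from the slits -/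
theorem sheet_locConst (p : P.Surf) (hp : ∀ i, P.G i p.1.1 ∈ Complex.slitPlane) :
    ∀ᶠ q in 𝓝 p, P.sheet q = P.sheet p := by
  have key : ∀ i : Fin 2, ∀ᶠ q : P.Surf in 𝓝 p, P.sheet q i = P.sheet p i := by
    intro i
    have hGc : Continuous fun q : P.Surf => P.G i q.1.1 := (continuous_G P i).comp (continuous_base P)
    have hG0 : P.G i p.1.1 ≠ 0 := Complex.slitPlane_ne_zero (hp i)
    have hcb : ContinuousAt (fun q : P.Surf => cb (P.G i q.1.1)) p :=
      ContinuousAt.comp (f := fun q : P.Surf => P.G i q.1.1) (cb_continuousAt (hp i)) hGc.continuousAt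
    have h1 : ∀ᶠ q : P.Surf in 𝓝 p, P.G i q.1.1 ≠ 0 := hGc.continuousAt.eventually_ne hG0
    have h2 : ∀ j : ZMod 3, P.sheet p i ≠ j → ∀ᶠ q : P.Surf in 𝓝 p, P.sheet q i ≠ j := by
      intro j hj
      have hne : p.1.2 i - om ^ j.val * cb (P.G i p.1.1) ≠ 0 := by
        intro h
        apply hj
        exact (eq_lb_iff hG0 (p.2 i) j).mpr (sub_eq_zero.mp h)
      have hc : ContinuousAt (fun q : P.Surf => q.1.2 i - om ^ j.val * cb (P.G i q.1.1)) p :=
        (continuous_w P i).continuousAt.sub (continuousAt_const.mul hcb)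
      filter_upwards [hc.eventually_ne hne, h1] with q hq hq1 hq2
      exact hq (sub_eq_zero.mpr ((eq_lb_iff hq1 (q.2 i) j).mp hq2))
    have h3 : ∀ᶠ q : P.Surf in 𝓝 p, ∀ j : ZMod 3, P.sheet p i ≠ j → P.sheet q i ≠ j := by
      rw [Filter.eventually_all]
      intro j
      by_cases hj : P.sheet p i = j
      · exact Filter.Eventually.of_forall fun q h => absurd hj h
      · exact (h2 j hj).mono fun q h _ => h
    filter_upwards [h3] with q hq
    by_contra h
    exact hq (P.sheet q i) (fun e => h e.symm) rfl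
  filter_upwards [key 0, key 1] with q h0 h1
  funext i
  fin_cases i
  · exact h0
  · exact h1

theorem slit_of_ne {q : UnitAddCircle × UnitAddCircle} (h : q.2 ≠ 0) (i : Fin 2) :
    P.G i q ∈ Complex.slitPlane := by
  by_contra hn
  exact h ((G_notMem_slitPlane_iff P i q).mp hn).1

theorem continuousAt_yl {y : UnitAddCircle} (h : y ≠ 0) : ContinuousAt yl y := by
  unfold yl
  have h1 := AddCircle.continuousAt_equivIoc (1 : ℝ) 0 (x := y) (by simpa using h)
  exact continuousAt_subtype_val.comp h1

theorem norm_eq_yl (y : UnitAddCircle) : ‖y‖ = min (yl y) (1 - yl y) := by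
  have h0 := yl_pos y
  have h1 := yl_le y
  conv_lhs => rw [← coe_yl y]
  by_cases h : yl y ≤ 1 / 2
  · rw [min_eq_left (by linarith)]
    have := (AddCircle.norm_coe_eq_abs_iff (1 : ℝ) (x := yl y) one_ne_zero).mpr (by
      rw [abs_of_pos h0, abs_one]; exact h)
    rw [this, abs_of_pos h0]
  · push Not at h
    rw [min_eq_right (by linarith)]
    have h2 : ((yl y : ℝ) : UnitAddCircle) = ((yl y - 1 : ℝ) : UnitAddCircle) := by
      rw [AddCircle.coe_sub, AddCircle.coe_period, sub_zero]
    rw [h2]
    have := (AddCircle.norm_coe_eq_abs_iff (1 : ℝ) (x := yl y - 1) one_ne_zero).mpr (by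
      rw [abs_of_nonpos (by linarith)]; norm_num; linarith)
    rw [this, abs_of_nonpos (by linarith)]
    ring

/-- away from the band -/
theorem yl_of_norm_lt {y : UnitAddCircle} {a : ℝ} (h : ‖y‖ < a) : yl y ≤ a ∨ 1 - a ≤ yl y := by
  rw [norm_eq_yl] at h
  rcases min_lt_iff.mp h with h | h
  · left; exact h.le
  · right; linarith

/-- the class number `g` -/
noncomputable def hcl (g : Ga) (p : P.Surf) : UnitAddCircle := by
  classical exact if P.sheet p = g then ((chi (yl p.1.1.2) : ℝ) : UnitAddCircle) else 0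

theorem hcl_eq (g : Ga) (p : P.Surf) :
    hcl P g p = if P.sheet p = g then ((chi (yl p.1.1.2) : ℝ) : UnitAddCircle) else 0 := by
  unfold hcl
  congr

theorem coe_one : (((1 : ℝ)) : UnitAddCircle) = 0 := AddCircle.coe_period 1

theorem hcl_zero {g : Ga} {p : P.Surf} (h : yl p.1.1.2 ≤ 1 / 4 ∨ 3 / 4 ≤ yl p.1.1.2) :
    hcl P g p = 0 := by
  rw [hcl_eq]
  split_ifs
  · rcases h with h | h
    · rw [chi_of_le h]; simp
    · rw [chi_of_ge h, coe_one]
  · rfl

theorem continuous_hcl (g : Ga) : Continuous (hcl P g) := by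
  rw [continuous_iff_continuousAt]
  intro p
  by_cases hy : ‖p.1.1.2‖ < 1 / 4
  · have h1 : ∀ᶠ q : P.Surf in 𝓝 p, ‖q.1.1.2‖ < 1 / 4 :=
      ((continuous_ht P).norm.continuousAt).eventually_lt_const hy
    have h2 : hcl P g =ᶠ[𝓝 p] fun _ => 0 := by
      filter_upwards [h1] with q hq
      apply hcl_zero
      rcases yl_of_norm_lt hq with h | h
      · left; exact h
      · right; linarith
    exact continuousAt_const.congr h2.symm
  · have hy0 : p.1.1.2 ≠ 0 := by
      intro h
      rw [h, norm_zero] at hy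
      norm_num at hy
    have h1 := sheet_locConst P p (fun i => slit_of_ne P hy0 i)
    by_cases hs : P.sheet p = g
    · have h2 : hcl P g =ᶠ[𝓝 p] fun q => ((chi (yl q.1.1.2) : ℝ) : UnitAddCircle) := by
        filter_upwards [h1] with q hq
        rw [hcl_eq, if_pos (hq.trans hs)]
      refine ContinuousAt.congr ?_ h2.symm
      have h3 : ContinuousAt (fun q : P.Surf => yl q.1.1.2) p :=
        ContinuousAt.comp (f := fun q : P.Surf => q.1.1.2) (continuousAt_yl hy0)
          (continuous_ht P).continuousAt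
      have h4 : ContinuousAt (fun q : P.Surf => chi (yl q.1.1.2)) p :=
        ContinuousAt.comp (f := fun q : P.Surf => yl q.1.1.2) chi_continuous.continuousAt h3
      exact (AddCircle.continuous_mk' (1 : ℝ)).continuousAt.comp h4
    · have h2 : hcl P g =ᶠ[𝓝 p] fun _ => 0 := by
        filter_upwards [h1] with q hq
        rw [hcl_eq, if_neg (by rw [hq]; exact hs)]
      exact continuousAt_const.congr h2.symm

/-- the displacement along the isotopy -/
noncomputable def Hcl (g : Ga) (u : I × P.Surf) : ℝ := by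
  classical exact
  if P.sheet u.2 = g then chi (yl u.2.1.1.2 + u.1 * P.tau u.2.1.1) - chi (yl u.2.1.1.2) else 0

theorem Hcl_eq (g : Ga) (u : I × P.Surf) :
    Hcl P g u = if P.sheet u.2 = g then
      chi (yl u.2.1.1.2 + u.1 * P.tau u.2.1.1) - chi (yl u.2.1.1.2) else 0 := by
  unfold Hcl
  congr

theorem t_tau_nonneg (t : I) (q : UnitAddCircle × UnitAddCircle) : 0 ≤ (t : ℝ) * P.tau q :=
  mul_nonneg t.2.1 (tau_nonneg P q)

theorem t_tau_le (t : I) (q : UnitAddCircle × UnitAddCircle) : (t : ℝ) * P.tau q ≤ P.tau q :=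
  mul_le_of_le_one_left (tau_nonneg P q) t.2.2

theorem Hcl_zero {g : Ga} {u : I × P.Surf}
    (h : yl u.2.1.1.2 ≤ 1 / 4 - 1 / 100 ∨ 3 / 4 ≤ yl u.2.1.1.2) : Hcl P g u = 0 := by
  rw [Hcl_eq]
  have h0 := t_tau_nonneg P u.1 u.2.1.1
  have h1 := (t_tau_le P u.1 u.2.1.1).trans (tau_le P u.2.1.1)
  split_ifs
  · rcases h with h | h
    · rw [chi_of_le (by linarith), chi_of_le (by linarith), sub_zero]
    · rw [chi_of_ge (by linarith), chi_of_ge h, sub_self]
  · rfl

theorem continuous_Hcl (g : Ga) : Continuous (Hcl P g) := by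
  rw [continuous_iff_continuousAt]
  intro u
  have hcy : Continuous fun v : I × P.Surf => v.2.1.1.2 := (continuous_ht P).comp continuous_snd
  by_cases hy : ‖u.2.1.1.2‖ < 1 / 4 - 1 / 100
  · have h1 : ∀ᶠ v : I × P.Surf in 𝓝 u, ‖v.2.1.1.2‖ < 1 / 4 - 1 / 100 :=
      (hcy.norm.continuousAt).eventually_lt_const hy
    have h2 : Hcl P g =ᶠ[𝓝 u] fun _ => 0 := by
      filter_upwards [h1] with q hq
      apply Hcl_zero
      rcases yl_of_norm_lt hq with h | h
      · left; exact h
      · right; linarith
    exact continuousAt_const.congr h2.symm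
  · have hy0 : u.2.1.1.2 ≠ 0 := by
      intro h
      rw [h, norm_zero] at hy
      norm_num at hy
    have h1 : ∀ᶠ v : I × P.Surf in 𝓝 u, P.sheet v.2 = P.sheet u.2 :=
      continuous_snd.continuousAt.eventually
        (sheet_locConst P u.2 (fun i => slit_of_ne P hy0 i))
    by_cases hs : P.sheet u.2 = g
    · have h2 : Hcl P g =ᶠ[𝓝 u] fun v =>
          chi (yl v.2.1.1.2 + v.1 * P.tau v.2.1.1) - chi (yl v.2.1.1.2) := by
        filter_upwards [h1] with q hq
        rw [Hcl_eq, if_pos (hq.trans hs)]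
      refine ContinuousAt.congr ?_ h2.symm
      have h3 : ContinuousAt (fun v : I × P.Surf => yl v.2.1.1.2) u :=
        ContinuousAt.comp (f := fun v : I × P.Surf => v.2.1.1.2) (continuousAt_yl hy0)
          hcy.continuousAt
      have h5 : Continuous (fun v : I × P.Surf => (v.1 : ℝ) * P.tau v.2.1.1) :=
        (continuous_subtype_val.comp continuous_fst).mul
          ((continuous_tau P).comp ((continuous_base P).comp continuous_snd))
      have h4 : ContinuousAt (fun v : I × P.Surf => chi (yl v.2.1.1.2)) u :=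
        ContinuousAt.comp (f := fun v : I × P.Surf => yl v.2.1.1.2) chi_continuous.continuousAt h3
      have h6 : ContinuousAt (fun v : I × P.Surf =>
          chi (yl v.2.1.1.2 + v.1 * P.tau v.2.1.1)) u :=
        ContinuousAt.comp (f := fun v : I × P.Surf => yl v.2.1.1.2 + v.1 * P.tau v.2.1.1)
          chi_continuous.continuousAt (h3.add h5.continuousAt)
      exact h6.sub h4
    · have h2 : Hcl P g =ᶠ[𝓝 u] fun _ => 0 := by
        filter_upwards [h1] with q hq
        rw [Hcl_eq, if_neg (by rw [hq]; exact hs)]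
      exact continuousAt_const.congr h2.symm

theorem exists_cls (F : IdIsotopy P.Surf)
    (hF : ∀ (t : I) (p : P.Surf), (F.toMap (t, p)).1 = P.psi (t * P.tau p.1.1) p.1) :
    ∃ h : Ga → C(P.Surf, UnitAddCircle),
      (∀ g p, h g p = if P.sheet p = g then ((chi (yl p.1.1.2) : ℝ) : UnitAddCircle) else 0) ∧
      ∀ g, F.IsDisp (h g) (Dg P g) := by
  refine ⟨fun g => ⟨hcl P g, continuous_hcl P g⟩, fun g p => hcl_eq P g p, fun g => ?_⟩
  refine ⟨⟨Hcl P g, continuous_Hcl P g⟩, ?_, ?_, ?_⟩
  · intro x
    change Hcl P g (0, x) = 0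
    rw [Hcl_eq]
    simp
  · intro t p
    change hcl P g (F.toMap (t, p)) = hcl P g p + ((Hcl P g (t, p) : ℝ) : UnitAddCircle)
    by_cases hp : ∀ i, P.G i p.1.1 ≠ 0
    · obtain ⟨X, hX⟩ := QuotientAddGroup.mk_surjective p.1.1.1
      have hY0 := yl_pos p.1.1.2
      have hY1 := yl_le p.1.1.2
      have h0 := t_tau_nonneg P t p.1.1
      have h1 := t_tau_le P t p.1.1
      have h2 := tau_le P p.1.1
      have hst := sheet_step P p (F.toMap (t, p)) hp h0 h1 hX.symm (coe_yl p.1.1.2).symm hY0 hY1
        (hF t p)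
      have hy : (F.toMap (t, p)).1.1.2 = ((yl p.1.1.2 + t * P.tau p.1.1 : ℝ) : UnitAddCircle) := by
        rw [hF t p, AddCircle.coe_add, coe_yl]
        rfl
      by_cases hc : yl p.1.1.2 + t * P.tau p.1.1 ≤ 1
      · have hyl : yl (F.toMap (t, p)).1.1.2 = yl p.1.1.2 + t * P.tau p.1.1 := by
          rw [hy, yl_coe (by linarith) hc]
        rw [hcl_eq, hcl_eq, Hcl_eq, hst.1 hc, hyl]
        split_ifs
        · rw [← AddCircle.coe_add]
          congr 1
          simp
        · simp
      · push Not at hc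
        have hyl : yl (F.toMap (t, p)).1.1.2 = yl p.1.1.2 + t * P.tau p.1.1 - 1 := by
          rw [hy]
          have h3 : ((yl p.1.1.2 + t * P.tau p.1.1 : ℝ) : UnitAddCircle) =
              ((yl p.1.1.2 + t * P.tau p.1.1 - 1 : ℝ) : UnitAddCircle) := by
            rw [AddCircle.coe_sub, AddCircle.coe_period, sub_zero]
          rw [h3, yl_coe (by linarith) (by linarith)]
        rw [hcl_zero P (Or.inl (by rw [hyl]; linarith)), hcl_zero P (Or.inr (by linarith)),
          Hcl_zero P (Or.inr (by simp only; linarith))]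
        simp
    · push Not at hp
      obtain ⟨i, hi⟩ := hp
      have h1 : F.toMap (t, p) = p := by
        apply Subtype.ext
        rw [hF t p]
        exact psi_zero_time P _ (by rw [tau_eq_zero P hi, mul_zero])
      rw [h1, Hcl_eq]
      simp [tau_eq_zero P hi]
  · intro x
    change Dg P g x = Hcl P g (1, x)
    rw [Hcl_eq]
    by_cases h : P.sheet x = g
    · rw [Dg_of_eq P h, if_pos h]
      simp
    · rw [Dg_of_ne P h, if_neg h]

end Pool.Agent.helper8.Rot
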